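import Pool.Agent.Y947.RL.Stm2

/-!
# Project RL, statement FK: from the polynomial to a number field
-/

set_option autoImplicit false

open Finset Polynomial Module

namespace Pool.Agent.Y620.RL

open Pool.Agent.Y947.RL
open IntermediateField

lemma sp_map {A B : Type*} [CommRing A] [CommRing B] (φ : A →+* B) (ω : A) (F : ℤ[X][X]) :
    (sp ω F).map φ = sp (φ ω) F := by
  unfold sp
  rw [Polynomial.map_map]
  congr 1
  refine Polynomial.ringHom_ext (fun n => ?_) ?_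
  · simp
  · simp

lemma sp_monic {A : Type*} [CommRing A] (ω : A) {F : ℤ[X][X]} (hF : F.Monic) : (sp ω F).Monic :=
  hF.map _

lemma sp_eval {A B : Type*} [CommRing A] [CommRing B] (φ : A →+* B) (ω a : A) (F : ℤ[X][X]) :
    (sp (φ ω) F).eval (φ a) = φ ((sp ω F).eval a) := by
  rw [← sp_map, Polynomial.eval_map, Polynomial.eval₂_hom]

lemma sp_degree {A : Type*} [CommRing A] [Nontrivial A] (ω : A) {F : ℤ[X][X]} (hF : F.Monic) :
    (sp ω F).natDegree = F.natDegree := hF.natDegree_map _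

lemma ext_of {L K : Type*} [Field L] [Field K] [Algebra L K] (α : K)
    (h : ∀ x : K, ∃ p : L[X], x = aeval α p) (f g : K →+* ℂ)
    (h1 : f.comp (algebraMap L K) = g.comp (algebraMap L K)) (h2 : f α = g α) : f = g := by
  ext x
  obtain ⟨p, rfl⟩ := h x
  rw [aeval_def, Polynomial.hom_eval₂, Polynomial.hom_eval₂, h1, h2]

lemma prod_eq {ι : Type*} (s : Finset ι) (f : ι → ℂ) (hf : Set.InjOn f s) (p : ℂ[X])
    (hp : p.Monic) (hr : ∀ i ∈ s, p.eval (f i) = 0) (hd : p.natDegree = s.card) :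
    p = ∏ i ∈ s, (X - C (f i)) := by
  have h1 : (∏ i ∈ s, (X - C (f i))).Monic := monic_prod_of_monic _ _ fun i _ => monic_X_sub_C _
  have h2 : (∏ i ∈ s, (X - C (f i))).natDegree = s.card := by
    rw [natDegree_prod_of_monic _ _ fun i _ => monic_X_sub_C _]
    simp
  refine eq_of_monic_of_dvd_of_natDegree_le h1 hp ?_ (by rw [h2, hd])
  have h3 : (∏ i ∈ s, (X - C (f i))) = ((s.val.map f).map fun a => X - C a).prod := by
    rw [Multiset.map_map]
    rfl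
  rw [h3, Multiset.prod_X_sub_C_dvd_iff_le_roots hp.ne_zero, Multiset.le_iff_subset]
  · intro a ha
    obtain ⟨i, hi, rfl⟩ := Multiset.mem_map.1 ha
    exact (mem_roots hp.ne_zero).2 (hr i hi)
  · exact (Multiset.nodup_map_iff_inj_on s.nodup).2 fun x hx y hy hxy => hf hx hy hxy

/-- the abstract part -/
lemma core (hTR : S_TR) (m : ℕ) (F : ℤ[X][X]) (hF : Hyp m F) (K : Type) [Field K] [NumberField K]
    (ζ α : K) (ι : K →+* ℂ) (hζ : IsPrimitiveRoot (ι ζ) m)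
    (hα : (sp (ι ζ) F).eval (ι α) = 0)
    (gen : ∀ σ τ : K →ₐ[ℚ] ℂ, σ ζ = τ ζ → σ α = τ α → σ = τ)
    (hd : finrank ℚ K = Nat.totient m * F.natDegree) : Ctx m ζ α ∧
    ∀ ω : ℂ, IsPrimitiveRoot ω m → sp ω F = ∏ τ ∈ cls ζ ω, (X - C (τ α)) := by
  have hm := hF.hm
  have hζK : IsPrimitiveRoot ζ m := hζ.of_map_of_injective ι.injective
  have hαK : (sp ζ F).eval α = 0 := by
    apply ι.injective
    rw [← sp_eval, hα, map_zero]
  have hσ : ∀ σ : K →ₐ[ℚ] ℂ, (sp (σ ζ) F).eval (σ α) = 0 := by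
    intro σ
    have h := sp_eval (σ : K →+* ℂ) ζ α F
    rw [hαK, map_zero] at h
    exact h
  have hσζ : ∀ σ : K →ₐ[ℚ] ℂ, IsPrimitiveRoot (σ ζ) m := fun σ =>
    hζK.map_of_injective (f := σ) σ.toRingHom.injective
  refine ⟨⟨hm, hζK, ?_, ?_, ?_, gen, ?_⟩, fun ω hω => ?_⟩
  · have hζi : IsIntegral ℤ ζ := hζK.isIntegral hm
    have h1 : IsIntegral (integralClosure ℤ K) α := by
      refine ⟨sp (⟨ζ, hζi⟩ : integralClosure ℤ K) F, sp_monic _ hF.monic, ?_⟩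
      rw [← Polynomial.eval_map, sp_map]
      exact hαK
    exact isIntegral_trans α h1
  · rintro rfl
    rw [map_zero] at hα
    exact hF.h0 _ hζ hα
  · intro k hk h1
    refine hF.hroot _ hζ _ hα k hk ?_
    rw [← map_pow, h1, map_one]
  · intro k hk σ τ h1
    exact hF.quot _ _ (hσζ σ) (hσζ τ) _ _ (hσ σ) (hσ τ) k hk h1
  · refine prod_eq _ _ ?_ _ (sp_monic _ hF.monic) ?_ ?_
    · intro σ h1 τ h2 h3
      simp only [cls, Finset.coe_filter, Finset.mem_univ, true_and, Set.mem_ofPred_eq] at h1 h2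
      exact gen σ τ (h1.trans h2.symm) h3
    · intro τ hτ
      have h1 : τ ζ = ω := by
        simpa [cls] using hτ
      rw [← h1]
      exact hσ τ
    · rw [sp_degree _ hF.monic]
      have h1 := (hTR K m ζ hm hζK).2.2 ω hω
      rw [hd, mul_comm] at h1
      exact (Nat.eq_of_mul_eq_mul_left (Nat.totient_pos.2 hm) h1).symm

/-- **FK** -/
theorem fk : S_TR → S_FK := by
  intro hTR m F hF
  have hm := hF.hm
  set w : ℂ := Complex.exp (2 * Real.pi * Complex.I / m) with hw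
  have hwp : IsPrimitiveRoot w m := Complex.isPrimitiveRoot_exp m hm.ne'
  have hwi : IsIntegral ℚ w := (hwp.isIntegral hm).tower_top
  have hirr := hF.irr w hwp
  set g : ℚ⟮w⟯ := AdjoinSimple.gen ℚ w with hg
  have hgw : algebraMap ℚ⟮w⟯ ℂ g = w := AdjoinSimple.algebraMap_gen ℚ w
  have hmon : (sp g F).Monic := sp_monic g hF.monic
  have hdeg : (sp w F).degree ≠ 0 := by
    intro h0
    have h1 : (sp w F).natDegree = 0 := natDegree_eq_of_degree_eq_some h0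
    rw [sp_degree w hF.monic] at h1
    have h2 : (sp g F).natDegree = 0 := by rw [sp_degree g hF.monic, h1]
    have h3 : sp g F = 1 := hmon.natDegree_eq_zero.1 h2
    rw [h3] at hirr
    exact hirr.not_isUnit isUnit_one
  obtain ⟨z, hz⟩ := IsAlgClosed.exists_root (sp w F) hdeg
  have hz0 : (sp w F).eval z = 0 := hz
  have hgz : aeval z (sp g F) = 0 := by
    rw [aeval_def, ← Polynomial.eval_map, sp_map, hgw]
    exact hz0
  have hzi : IsIntegral ℚ⟮w⟯ z := ⟨sp g F, hmon, by rw [← aeval_def]; exact hgz⟩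
  have hmin : minpoly ℚ⟮w⟯ z = sp g F :=
    (minpoly.eq_of_irreducible_of_monic hirr hgz hmon).symm
  have : FiniteDimensional ℚ ℚ⟮w⟯ := adjoin.finiteDimensional hwi
  have : FiniteDimensional ℚ⟮w⟯ ℚ⟮w⟯⟮z⟯ := adjoin.finiteDimensional hzi
  have hfd : FiniteDimensional ℚ ℚ⟮w⟯⟮z⟯ := Module.Finite.trans ℚ⟮w⟯ ℚ⟮w⟯⟮z⟯
  have : NumberField ℚ⟮w⟯⟮z⟯ := { to_charZero := inferInstance, to_finiteDimensional := hfd }
  have hfr : finrank ℚ ℚ⟮w⟯⟮z⟯ = Nat.totient m * F.natDegree := by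
    have h1 := Module.finrank_mul_finrank ℚ ℚ⟮w⟯ ℚ⟮w⟯⟮z⟯
    rw [adjoin.finrank hwi, adjoin.finrank hzi, hmin, sp_degree g hF.monic,
      ← cyclotomic_eq_minpoly_rat hwp hm, natDegree_cyclotomic] at h1
    exact h1.symm
  refine ⟨ℚ⟮w⟯⟮z⟯, inferInstance, this, algebraMap ℚ⟮w⟯ ℚ⟮w⟯⟮z⟯ g, AdjoinSimple.gen ℚ⟮w⟯ z, ?_⟩
  refine core hTR m F hF ℚ⟮w⟯⟮z⟯ _ _ (algebraMap ℚ⟮w⟯⟮z⟯ ℂ) ?_ ?_ ?_ hfr
  · rw [← IsScalarTower.algebraMap_apply, hgw]
    exact hwp
  · rw [← IsScalarTower.algebraMap_apply, hgw, AdjoinSimple.algebraMap_gen]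
    exact hz0
  · intro σ τ h1 h2
    have h3 : (σ : ℚ⟮w⟯⟮z⟯ →+* ℂ) = (τ : ℚ⟮w⟯⟮z⟯ →+* ℂ) := by
      refine ext_of (L := ℚ⟮w⟯) (AdjoinSimple.gen ℚ⟮w⟯ z) (fun x => ?_) _ _ ?_ h2
      · obtain ⟨p, hp⟩ := (adjoin.powerBasis hzi).exists_eq_aeval' x
        rw [adjoin.powerBasis_gen] at hp
        exact ⟨p, hp⟩
      · refine ext_of (L := ℚ) g (fun x => ?_) _ _ (Subsingleton.elim _ _) h1
        obtain ⟨p, hp⟩ := (adjoin.powerBasis hwi).exists_eq_aeval' x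
        rw [adjoin.powerBasis_gen] at hp
        exact ⟨p, hp⟩
    ext x
    exact congrFun (congrArg DFunLike.coe h3) x

end Pool.Agent.Y620.RL
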